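import Pool.Agent.X27.Cor.DichC

/-!
# Generic corona data on the ball are universal; a zero-one law for the corona problem

Let `B` be the unit ball of `ℂ^m`, `m ≥ 1`. For `N` and `δ > 0` consider the corona data
`F = (F_1, …, F_N)` on `B` with `|F_j| ≤ 1` and `∑ |F_j| ≥ δ`, and let `X` be the closure, in the
topology of locally uniform convergence, of the data with strict inequalities (uniformly in `B`); `X`
lies between the set of all data with constant `δ` and the sets of all data with constants `δ' > δ`, and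
it is a Baire space. Generic means: for all `F` in a residual subset of `X`.

* (U) The generic `F ∈ X` is universal at every boundary point: for all `p`, `|p| = 1`, and all
  `F' ∈ X` there are automorphisms `φ_k` of `B` which converge to `p` and for which `F ∘ φ_k → F'`,
  locally uniformly in `B`.
* (E) Hence the generic `F ∈ X` is extremal near every boundary point: if the Bezout equation
  `∑ F_j g_j = 1` has a solution with `|g_j| ≤ C` merely on `B ∩ W`, for some open `W` which meets the
  sphere, then for all `F' ∈ X` the equation `∑ F'_j g_j = 1` has a solution with `|g_j| ≤ C` on `B`.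
* (D) Hence the zero-one law: either the corona theorem holds on `B` with a bound that is the same
  for all data in `X`, or for the generic `F ∈ X` there is no bounded solution on any of the sets
  `B ∩ W`, `W` open, `W` meets the sphere.

Proof. Let `F`, `F'` be strict data, continuous up to the boundary, with `F = F'(-p)` at `p`. If `ψ` is
an automorphism which pushes `B` towards `-p`, then `F + F' ∘ ψ - F(p)` are corona data (at each point
of `B` they are close to the value of one of the two), which are close to `F` away from `p` and look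
like `F'` near `p`. Two constants can be connected by data of the form `γ(e(z))` with `γ` holomorphic and
`e` a function of `⟨z,p⟩` with values near `[0, 1]`. So universal data are dense, and Baire's theorem and a
normal family argument give the rest.
-/

set_option autoImplicit false

open Metric Set Filter Topology

namespace Pool.Agent.Results.MP_ca0fc2_an.GenericData

/-- `ℂ^m` with the Euclidean norm. -/
abbrev V (m : ℕ) := EuclideanSpace ℂ (Fin m)

/-- Continuous maps from the open unit ball of `ℂ^m` to `ℂ^N`, with the topology of locally uniform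
convergence. -/
abbrev Maps (m N : ℕ) := C(ball (0 : V m) 1, Fin N → ℂ)

variable {m N : ℕ}

/-- `F` is holomorphic. -/
def Holomorphic (F : Maps m N) : Prop :=
  ∃ f : Fin N → V m → ℂ, (∀ j, DifferentiableOn ℂ (f j) (ball 0 1)) ∧
    ∀ (z : ball (0 : V m) 1) (j : Fin N), F z j = f j z

/-- Corona data with constant `δ`. -/
def Data (δ : ℝ) : Set (Maps m N) :=
  {F | Holomorphic F ∧ ∀ z, (∀ j, ‖F z j‖ ≤ 1) ∧ δ ≤ ∑ j, ‖F z j‖}

/-- Corona data for which the inequalities hold with a margin. -/
def StrictData (δ : ℝ) : Set (Maps m N) :=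
  {F | Holomorphic F ∧ ∃ ε : ℝ, 0 < ε ∧ ∀ z, (∀ j, ‖F z j‖ ≤ 1 - ε) ∧ δ + ε ≤ ∑ j, ‖F z j‖}

/-- The Bezout equation has a holomorphic solution bounded by `C` on the part of the ball in `W`. -/
def Solvable (C : ℝ) (W : Set (V m)) (F : Maps m N) : Prop :=
  ∃ g : Fin N → V m → ℂ, (∀ j, DifferentiableOn ℂ (g j) (ball 0 1 ∩ W)) ∧
    (∀ j, ∀ z ∈ ball (0 : V m) 1 ∩ W, ‖g j z‖ ≤ C) ∧
    ∀ z : ball (0 : V m) 1, (z : V m) ∈ W → ∑ j, F z j * g j z = 1

/-- `φ` is an automorphism of the ball. -/
def IsAut (φ : ball (0 : V m) 1 ≃ ball (0 : V m) 1) : Prop :=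
  (∃ f : V m → V m, DifferentiableOn ℂ f (ball 0 1) ∧ ∀ z : ball (0 : V m) 1, (φ z : V m) = f z) ∧
    ∃ f : V m → V m, DifferentiableOn ℂ f (ball 0 1) ∧
      ∀ z : ball (0 : V m) 1, (φ.symm z : V m) = f z

/-- At each boundary point `p`, all `F' ∈ X` are locally uniform limits of `F ∘ φ`, with automorphisms
`φ` which tend to `p` locally uniformly. -/
def Universal (X : Set (Maps m N)) (F : Maps m N) : Prop :=
  ∀ p : V m, ‖p‖ = 1 → ∀ F' ∈ X, ∀ r : ℝ, r < 1 → ∀ ε : ℝ, 0 < ε →
    ∃ φ : ball (0 : V m) 1 ≃ ball (0 : V m) 1, IsAut φ ∧ ∀ z : ball (0 : V m) 1, ‖(z : V m)‖ ≤ r →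
      ‖(φ z : V m) - p‖ ≤ ε ∧ ∀ j, ‖F (φ z) j - F' z j‖ ≤ ε

/-- **Generic corona data are universal; zero-one law for the corona problem on the ball.** -/
theorem result (m N : ℕ) (_hm : 0 < m) (δ : ℝ) (hδ : 0 < δ) (X : Set (Maps m N))
    (hX : X = closure (StrictData δ)) :
    X ⊆ Data δ ∧ (∀ δ' : ℝ, δ < δ' → Data δ' ⊆ X) ∧ BaireSpace X ∧
    {F : X | Universal X F.1} ∈ residual X ∧
    {F : X | ∀ W : Set (V m), IsOpen W → (∃ p ∈ W, ‖p‖ = 1) → ∀ C : ℝ, Solvable C W F.1 →
      ∀ F' ∈ X, Solvable C univ F'} ∈ residual X ∧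
    ((∃ C : ℝ, ∀ F ∈ X, Solvable C univ F) ∨
      {F : X | ∀ W : Set (V m), IsOpen W → (∃ p ∈ W, ‖p‖ = 1) → ∀ C : ℝ, ¬ Solvable C W F.1} ∈
        residual X) := by
  subst hX
  refine ⟨?_, ?_, ?_, ?_, ?_, ?_⟩
  · exact closure_minimal (Pool.Agent.X27.Cor.Dich.str_sub δ) (Pool.Agent.X27.Cor.Dich.closed_dat δ)
  · intro δ' h
    exact Pool.Agent.X27.Cor.Dich.dat_sub h (hδ.trans h).le
  · exact Pool.Agent.X27.Cor.Dich.baire _ isClosed_closure
  · exact Pool.Agent.X27.Cor.Dich.univ_residual hδ
  · refine mem_of_superset (Pool.Agent.X27.Cor.Dich.univ_residual hδ) ?_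
    intro F hF W hW hp C hs F' hF'
    exact Pool.Agent.X27.Cor.Dich.univ_sol hF hW hp hs hF'
  · exact Pool.Agent.X27.Cor.Dich.dichotomy hδ

end Pool.Agent.Results.MP_ca0fc2_an.GenericData
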