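import Pool.Agent.H326R3.CB6

/-!
# The corona problem on the unit ball: data that are one-variable functions near the sphere, and one
arbitrary function

Let `B` be the unit ball of `ℂ^(n+1)`, of any dimension. A function `f ∈ H^∞(B)` is *asymptotic to a
function of one variable* at the boundary point `p` if `f(z) - h(⟨z,p⟩) → 0` as `z → p`, `z ∈ B`, for
some bounded holomorphic function `h` on the disc (`h` may depend on `p`, and `f` need not have a limit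
at `p`).

* First part. Let `f_1, …, f_N ∈ H^∞(B)` have no common zero in `B`. Suppose that every boundary point
  `p` has an index `k` and a set `S` of indices with `|f_k| + ∑_{j ∈ S} |f_j| ≥ c > 0` near `p`, such
  that the functions `f_j`, `j ∈ S`, are asymptotic to functions of one variable at `p` (`f_k` is
  arbitrary; `k`, `S` and `c` may depend on `p`). Then `∑ f_j g_j = 1` for some `g_j ∈ H^∞(B)`.
* Second part. Let `f_1, …, f_N` be in the algebra generated by the ball algebra and all functions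
  `h(⟨z,a⟩)`, `|a| = 1`, `h ∈ H^∞(𝔻)` (for all directions `a` together), and let `G ∈ H^∞(B)` be
  arbitrary. If `∑ |f_j| + |G| ≥ δ > 0` on `B` then `∑ f_j g_j + G g_0 = 1` for some
  `g_j ∈ H^∞(B)`.

The proof works in the Banach algebra `H^∞(B)`: a proper ideal is contained in a maximal one, whose
fibre over the closed ball is examined with the P. Jones type operators of `Pool.Agent.H720R2`.
-/

set_option autoImplicit false

open Metric Set Filter Topology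

namespace Pool.Agent.Results.MP_ca0fc2_an.OneVariableAsymptotics

/-- The open unit ball of `ℂ^(n+1)`. -/
def UnitBall (n : ℕ) : Set (Fin (n + 1) → ℂ) := {z | ∑ i, ‖z i‖ ^ 2 < 1}

/-- The closed unit ball of `ℂ^(n+1)`. -/
def ClosedUnitBall (n : ℕ) : Set (Fin (n + 1) → ℂ) := {z | ∑ i, ‖z i‖ ^ 2 ≤ 1}

/-- The unit sphere of `ℂ^(n+1)`. -/
def UnitSphere (n : ℕ) : Set (Fin (n + 1) → ℂ) := {z | ∑ i, ‖z i‖ ^ 2 = 1}

/-- The inner product `⟨z, p⟩ = ∑ z_i conj(p_i)`. -/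
noncomputable def ip {n : ℕ} (z p : Fin (n + 1) → ℂ) : ℂ := ∑ i, z i * starRingEnd ℂ (p i)

/-- `f` is a bounded holomorphic function on the ball. -/
def HInf {n : ℕ} (f : (Fin (n + 1) → ℂ) → ℂ) : Prop :=
  DifferentiableOn ℂ f (UnitBall n) ∧ ∃ M : ℝ, ∀ z ∈ UnitBall n, ‖f z‖ ≤ M

/-- `h` is a bounded holomorphic function on the unit disc. -/
def HInfDisc (h : ℂ → ℂ) : Prop :=
  DifferentiableOn ℂ h (ball 0 1) ∧ ∃ M : ℝ, ∀ w ∈ ball (0 : ℂ) 1, ‖h w‖ ≤ M

/-- At the boundary point `p` the function `f` is asymptotic to a bounded holomorphic function of the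
one variable `⟨z, p⟩`. -/
def OneVarAt {n : ℕ} (f : (Fin (n + 1) → ℂ) → ℂ) (p : Fin (n + 1) → ℂ) : Prop :=
  ∃ h : ℂ → ℂ, HInfDisc h ∧ Tendsto (fun z => f z - h (ip z p)) (𝓝[UnitBall n] p) (𝓝 0)

/-- The ball algebra (functions holomorphic on the open and continuous on the closed ball) together
with all bounded holomorphic functions of one variable `⟨z, a⟩`, `|a| = 1`. -/
def Generators (n : ℕ) : Set ((Fin (n + 1) → ℂ) → ℂ) :=
  {f | ContinuousOn f (ClosedUnitBall n) ∧ DifferentiableOn ℂ f (UnitBall n)} ∪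
  {f | ∃ (a : Fin (n + 1) → ℂ) (h : ℂ → ℂ), a ∈ UnitSphere n ∧ HInfDisc h ∧
    f = fun z => h (ip z a)}

theorem result (n N : ℕ) :
    (∀ f : Fin N → (Fin (n + 1) → ℂ) → ℂ, (∀ j, HInf (f j)) →
      (∀ z ∈ UnitBall n, ∃ j, f j z ≠ 0) →
      (∀ p ∈ UnitSphere n, ∃ (k : Fin N) (S : Finset (Fin N)) (c : ℝ), 0 < c ∧
        (∀ᶠ z in 𝓝[UnitBall n] p, c ≤ ‖f k z‖ + ∑ j ∈ S, ‖f j z‖) ∧
        ∀ j ∈ S, OneVarAt (f j) p) →
      ∃ g : Fin N → (Fin (n + 1) → ℂ) → ℂ, (∀ j, HInf (g j)) ∧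
        ∀ z ∈ UnitBall n, ∑ j, f j z * g j z = 1) ∧
    (∀ (f : Fin N → (Fin (n + 1) → ℂ) → ℂ) (G : (Fin (n + 1) → ℂ) → ℂ) (δ : ℝ),
      (∀ j, f j ∈ Algebra.adjoin ℂ (Generators n)) → HInf G → 0 < δ →
      (∀ z ∈ UnitBall n, δ ≤ ∑ j, ‖f j z‖ + ‖G z‖) →
      ∃ (g : Fin N → (Fin (n + 1) → ℂ) → ℂ) (g₀ : (Fin (n + 1) → ℂ) → ℂ),
        (∀ j, HInf (g j)) ∧ HInf g₀ ∧
        ∀ z ∈ UnitBall n, ∑ j, f j z * g j z + G z * g₀ z = 1) := by
  refine ⟨?_, ?_⟩
  · intro f hf hz hp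
    obtain ⟨g, hg, ⟨C, hC⟩, hbez⟩ := Pool.Agent.H326R3.CB.corona2 n N f (fun j => (hf j).1)
      (fun j => (hf j).2) hz (fun p hp1 => by
        obtain ⟨ψ, hψ, hψ0, hfil⟩ := Pool.Agent.H326R3.CB.peak_unitary p hp1
        obtain ⟨k, S, c, hc, h1, h2⟩ := hp p hp1
        refine ⟨ψ, hψ, hfil, k, S, c, hc, h1, fun j hj => ?_⟩
        obtain ⟨h, ⟨ha, hb⟩, h3⟩ := h2 j hj
        refine ⟨h, ha, hb, ?_⟩
        simp only [hψ0]
        exact h3)
    exact ⟨g, fun j => ⟨hg j, C, hC j⟩, hbez⟩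
  · intro f G δ hf hG hδ hc
    have hgen : Generators n = Pool.Agent.H326R3.CB.Gen n := by
      ext F
      constructor
      · rintro (h | ⟨a, h, ha, ⟨hd, hb⟩, rfl⟩)
        · exact Or.inl h
        · exact Or.inr ⟨a, h, ha, hd, hb, rfl⟩
      · rintro (h | ⟨a, h, ha, hd, hb, rfl⟩)
        · exact Or.inl h
        · exact Or.inr ⟨a, h, ha, ⟨hd, hb⟩, rfl⟩
    obtain ⟨g, g₀, hg, hg₀, ⟨C, hC, hC₀⟩, hbez⟩ := Pool.Agent.H326R3.CB.corona3 n N f G
      (fun j => hgen ▸ hf j) hG.1 hG.2 δ hδ hc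
    exact ⟨g, g₀, fun j => ⟨hg j, C, hC j⟩, ⟨hg₀, C, hC₀⟩, hbez⟩

end Pool.Agent.Results.MP_ca0fc2_an.OneVariableAsymptotics
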