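import Pool.Agent.X27.Cor.Rein2

/-!
# The corona theorem for functions of one variable and one arbitrary function on Reinhardt domains

Corona data `f_1(z), …, f_N(z), G(z, y)`, where the `f_i` are arbitrary bounded holomorphic functions
of the first variable and `G` is an arbitrary bounded holomorphic function, have bounded solutions of
the Bezout equation, with a bound that depends only on `N` and `δ`, on the following domains.

* (1) All bounded open sets `D ⊂ ℂ²` which are rotation invariant in `z`, complete in `y`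
  (`(z, y) ∈ D`, `|z'| = |z|`, `|y'| ≤ |y|` imply `(z', y') ∈ D`) and logarithmically convex. By the
  classical characterisation of pseudoconvex Reinhardt domains these include all bounded
  pseudoconvex Reinhardt domains of `ℂ²` which meet `{y = 0}`: all complete ones, and those over
  annuli; they need not be convex, and can be strictly pseudoconvex with smooth boundary.
* (2), (3) Domains over annuli and discs in `ℂ × ℂ^n` with complete Reinhardt fibres
  `(exp (v_j (|z|)) |y_j|)_j ∈ R`, `t ↦ v_j (e^t)` convex.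
* (4) For instance the strictly pseudoconvex domains `(log |z|)² + ∑ |y_j|² < 1`, whose fundamental
  group is infinite cyclic.

Proof. On the universal covering (`z = e^ζ`) of the part `z ≠ 0` the functions `v_j (|z|)` become convex
functions of `Re ζ`; they are smoothed by symmetric averages, so that the theorem for convex
functions over simply connected domains (`Pool.Agent.H788R3.Cor2.main1`) gives bounded solutions
there, which are then averaged over the infinite cyclic covering group (an ultralimit of Cesàro means)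
and descend; the hyperplane `z = 0` is removable.
-/

set_option autoImplicit false

open Set Filter Topology Metric

namespace Pool.Agent.Results.MP_ca0fc2_an.ReinhardtDomains

/-- The corona theorem on `D ⊂ ℂ × E`, which lies over the plane domain `U`, with constant `C` for all
data consisting of `N` functions `f_i ∈ H^∞(U)` of the first coordinate and one function
`G ∈ H^∞(D)`. -/
def Corona {E : Type} [NormedAddCommGroup E] [NormedSpace ℂ E] (N : ℕ) (δ C : ℝ) (U : Set ℂ)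
    (D : Set (ℂ × E)) : Prop :=
  ∀ f : Fin N → ℂ → ℂ, (∀ i, DifferentiableOn ℂ (f i) U) → (∀ i, ∀ z ∈ U, ‖f i z‖ ≤ 1) →
  ∀ G : ℂ × E → ℂ, DifferentiableOn ℂ G D → (∀ p ∈ D, ‖G p‖ ≤ 1) →
    (∀ p ∈ D, δ ≤ ∑ i, ‖f i p.1‖ ^ 2 + ‖G p‖ ^ 2) →
  ∃ (g : Fin N → ℂ × E → ℂ) (g₀ : ℂ × E → ℂ),
    (∀ i, DifferentiableOn ℂ (g i) D) ∧ DifferentiableOn ℂ g₀ D ∧
    (∀ i, ∀ p ∈ D, ‖g i p‖ ≤ C) ∧ (∀ p ∈ D, ‖g₀ p‖ ≤ C) ∧
    ∀ p ∈ D, ∑ i, f i p.1 * g i p + G p * g₀ p = 1

/-- `D ⊂ ℂ²` is a Reinhardt set which is complete in the second variable. -/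
def ReinhardtCompleteSnd (D : Set (ℂ × ℂ)) : Prop :=
  ∀ p ∈ D, ∀ z y : ℂ, ‖z‖ = ‖p.1‖ → ‖y‖ ≤ ‖p.2‖ → (z, y) ∈ D

/-- `D` is logarithmically convex: it contains with two points (whose first coordinates are not `0`)
the weighted geometric means of their absolute values. -/
def LogarithmicallyConvex (D : Set (ℂ × ℂ)) : Prop :=
  ∀ p ∈ D, ∀ q ∈ D, p.1 ≠ 0 → q.1 ≠ 0 → ∀ a b : ℝ, 0 ≤ a → 0 ≤ b → a + b = 1 →
    (((‖p.1‖ ^ a * ‖q.1‖ ^ b : ℝ) : ℂ), ((‖p.2‖ ^ a * ‖q.2‖ ^ b : ℝ) : ℂ)) ∈ D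

/-- The domain over `U` whose fibre over `z` consists of the `y` with
`(exp (v_j (|z|)) |y_j|)_j ∈ R`. -/
def RDom {n : ℕ} (U : Set ℂ) (v : Fin n → ℝ → ℝ) (R : Set (Fin n → ℝ)) :
    Set (ℂ × (Fin n → ℂ)) :=
  {p | p.1 ∈ U ∧ (fun j => Real.exp (v j ‖p.1‖) * ‖p.2 j‖) ∈ R}

/-- The strictly pseudoconvex domain `(log |z|)² + ∑ |y_j|² < 1`. -/
def Ring (n : ℕ) : Set (ℂ × (Fin n → ℂ)) :=
  {p | p.1 ≠ 0 ∧ Real.log ‖p.1‖ ^ 2 + ∑ j, ‖p.2 j‖ ^ 2 < 1}

theorem lg_convex : ConvexOn ℝ (Ioo (-1 : ℝ) 1) (fun t => -(1 / 2) * Real.log (1 - t ^ 2)) := by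
  have h1 : ConvexOn ℝ (Ioo (-1 : ℝ) 1) (fun t => -Real.log (1 - t)) := by
    refine ⟨convex_Ioo _ _, fun x hx y hy a b ha hb hab => ?_⟩
    have h := strictConcaveOn_log_Ioi.concaveOn.2 (x := 1 - x) (y := 1 - y)
      (by simpa using hx.2) (by simpa using hy.2) ha hb hab
    have e : a • (1 - x) + b • (1 - y) = 1 - (a • x + b • y) := by
      simp only [smul_eq_mul]; linarith
    rw [e] at h
    simp only [smul_eq_mul] at h ⊢
    linarith
  have h2 : ConvexOn ℝ (Ioo (-1 : ℝ) 1) (fun t => -Real.log (1 + t)) := by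
    refine ⟨convex_Ioo _ _, fun x hx y hy a b ha hb hab => ?_⟩
    have h := strictConcaveOn_log_Ioi.concaveOn.2 (x := 1 + x) (y := 1 + y)
      (by change (0 : ℝ) < _; linarith [hx.1]) (by change (0 : ℝ) < _; linarith [hy.1]) ha hb hab
    have e : a • (1 + x) + b • (1 + y) = 1 + (a • x + b • y) := by
      simp only [smul_eq_mul]; linarith
    rw [e] at h
    simp only [smul_eq_mul] at h ⊢
    linarith
  have h3 := (h1.add h2).smul (c := (1 / 2 : ℝ)) (by norm_num)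
  refine h3.congr ?_
  intro t ht
  have e1 : 1 - t ^ 2 = (1 - t) * (1 + t) := by ring
  change (1 / 2 : ℝ) * (-Real.log (1 - t) + -Real.log (1 + t)) = -(1 / 2) * Real.log (1 - t ^ 2)
  rw [e1, Real.log_mul (by linarith [ht.2]) (by linarith [ht.1])]
  ring

/-- **Corona theorem on Reinhardt domains** for functions of the first variable and one arbitrary
function. -/
theorem result (N : ℕ) (δ : ℝ) (hδ : 0 < δ) : ∃ C : ℝ,
    (∀ D : Set (ℂ × ℂ), IsOpen D → Bornology.IsBounded D → ReinhardtCompleteSnd D →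
      LogarithmicallyConvex D → Corona N δ C (Prod.fst '' D) D) ∧
    (∀ (n : ℕ) (a b : ℝ) (v : Fin n → ℝ → ℝ) (R : Set (Fin n → ℝ)), 0 ≤ a →
      (∀ j, ConvexOn ℝ {t | a < Real.exp t ∧ Real.exp t < b} (fun t => v j (Real.exp t))) →
      IsOpen R → (∀ x ∈ R, ∀ y : Fin n → ℝ, (∀ j, 0 ≤ y j ∧ y j ≤ x j) → y ∈ R) →
      Corona N δ C {z | a < ‖z‖ ∧ ‖z‖ < b} (RDom {z | a < ‖z‖ ∧ ‖z‖ < b} v R)) ∧
    (∀ (n : ℕ) (b : ℝ) (v : Fin n → ℝ → ℝ) (R : Set (Fin n → ℝ)), 0 < b →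
      (∀ j, ContinuousOn (v j) (Ico 0 b)) →
      (∀ j, ConvexOn ℝ {t | Real.exp t < b} (fun t => v j (Real.exp t))) →
      IsOpen R → (∀ x ∈ R, ∀ y : Fin n → ℝ, (∀ j, 0 ≤ y j ∧ y j ≤ x j) → y ∈ R) →
      Corona N δ C (ball 0 b) (RDom (ball 0 b) v R)) ∧
    ∀ n : ℕ, Corona N δ C (Prod.fst '' Ring n) (Ring n) := by
  obtain ⟨C1, hC1⟩ := Pool.Agent.X27.Cor.rein2 N δ hδ
  obtain ⟨C2, hC2⟩ := Pool.Agent.X27.Cor.annulus N δ hδ
  obtain ⟨C3, hC3⟩ := Pool.Agent.X27.Cor.disc N δ hδ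
  have mono : ∀ {E : Type} [NormedAddCommGroup E] [NormedSpace ℂ E] {C C' : ℝ} {U : Set ℂ}
      {D : Set (ℂ × E)}, C ≤ C' → Corona N δ C U D → Corona N δ C' U D := by
    intro E _ _ C C' U D hCC h f hf hfb G hG hGb hlow
    obtain ⟨g, g₀, h1, h2, h3, h4, h5⟩ := h f hf hfb G hG hGb hlow
    exact ⟨g, g₀, h1, h2, fun i p hp => (h3 i p hp).trans hCC, fun p hp => (h4 p hp).trans hCC, h5⟩
  have hann : ∀ (n : ℕ) (I : Set ℝ) (w : Fin n → ℝ → ℝ) (R : Set (Fin n → ℝ)),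
      IsOpen I → Convex ℝ I → I ≠ univ → (∀ j, ConvexOn ℝ I (w j)) →
      IsOpen R → (∀ x ∈ R, ∀ y : Fin n → ℝ, (∀ j, 0 ≤ y j ∧ y j ≤ x j) → y ∈ R) →
      Corona N δ C2 {z | z ≠ 0 ∧ Real.log ‖z‖ ∈ I}
        {p : ℂ × (Fin n → ℂ) | (p.1 ≠ 0 ∧ Real.log ‖p.1‖ ∈ I) ∧
          (fun j => Real.exp (w j (Real.log ‖p.1‖)) * ‖p.2 j‖) ∈ R} := by
    intro n I w R hI hIc hIu hw hR hRc f hf hfb G hG hGb hlow
    exact hC2 n I w R hI hIc hIu hw hR hRc f hf hfb G hG hGb hlow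
  refine ⟨max C1 (max C2 C3), ?_, ?_, ?_, ?_⟩
  · intro D hD hb hR hL
    refine mono (le_max_left _ _) ?_
    have hM : ∃ M : ℝ, ∀ p ∈ D, ‖p.1‖ ≤ M ∧ ‖p.2‖ ≤ M := by
      obtain ⟨M, hM⟩ := hb.exists_norm_le
      exact ⟨M, fun p hp => ⟨(norm_fst_le p).trans (hM p hp), (norm_snd_le p).trans (hM p hp)⟩⟩
    intro f hf hfb G hG hGb hlow
    exact hC1 D hD hR hL hM f G hf hfb hG hGb hlow
  · intro n a b v R ha hv hR hRc
    refine mono ((le_max_left _ _).trans (le_max_right _ _)) ?_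
    set I : Set ℝ := {t | a < Real.exp t ∧ Real.exp t < b} with hI
    have hU : {z : ℂ | a < ‖z‖ ∧ ‖z‖ < b} = {z | z ≠ 0 ∧ Real.log ‖z‖ ∈ I} := by
      ext z
      constructor
      · rintro ⟨h1, h2⟩
        have hz : 0 < ‖z‖ := ha.trans_lt h1
        refine ⟨norm_pos_iff.1 hz, ?_⟩
        rw [hI, mem_setOf_eq, Real.exp_log hz]
        exact ⟨h1, h2⟩
      · rintro ⟨h0, h1⟩
        rw [hI, mem_setOf_eq, Real.exp_log (norm_pos_iff.2 h0)] at h1
        exact h1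
    have hD : RDom {z : ℂ | a < ‖z‖ ∧ ‖z‖ < b} v R = {p | (p.1 ≠ 0 ∧ Real.log ‖p.1‖ ∈ I) ∧
          (fun j => Real.exp (v j (Real.exp (Real.log ‖p.1‖))) * ‖p.2 j‖) ∈ R} := by
      unfold RDom
      rw [hU]
      ext p
      constructor
      · rintro ⟨h1, h2⟩
        refine ⟨h1, ?_⟩
        rw [Real.exp_log (norm_pos_iff.2 h1.1)]
        exact h2
      · rintro ⟨h1, h2⟩
        refine ⟨h1, ?_⟩
        rw [Real.exp_log (norm_pos_iff.2 h1.1)] at h2
        exact h2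
    have hIo : IsOpen I := (isOpen_lt continuous_const Real.continuous_exp).inter
      (isOpen_lt Real.continuous_exp continuous_const)
    have hIc : Convex ℝ I := by
      refine (ordConnected_iff.2 fun x hx y hy _ z hz => ?_).convex
      exact ⟨hx.1.trans_le (Real.exp_le_exp.2 hz.1), (Real.exp_le_exp.2 hz.2).trans_lt hy.2⟩
    have hIu : I ≠ univ := by
      intro h
      have h1 : Real.log (max b 0 + 1) ∈ I := by rw [h]; trivial
      have h2 := h1.2
      rw [Real.exp_log (by positivity)] at h2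
      have := le_max_left b 0
      linarith
    rw [hD, hU]
    exact hann n I (fun j t => v j (Real.exp t)) R hIo hIc hIu hv hR hRc
  · intro n b v R hb hv hvc hR hRc
    refine mono ((le_max_right _ _).trans (le_max_right _ _)) ?_
    intro f hf hfb G hG hGb hlow
    exact hC3 n b v R hb hv hvc hR hRc f hf hfb G hG hGb hlow
  · intro n
    refine mono ((le_max_left _ _).trans (le_max_right _ _)) ?_
    have hfst : Prod.fst '' Ring n = {z : ℂ | z ≠ 0 ∧ Real.log ‖z‖ ∈ Ioo (-1 : ℝ) 1} := by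
      ext z
      constructor
      · rintro ⟨p, ⟨h1, h2⟩, rfl⟩
        refine ⟨h1, ?_⟩
        have h3 : 0 ≤ ∑ j, ‖p.2 j‖ ^ 2 := Finset.sum_nonneg fun j _ => by positivity
        rw [mem_Ioo, ← abs_lt, ← sq_lt_one_iff_abs_lt_one]
        linarith
      · rintro ⟨h1, h2⟩
        refine ⟨(z, 0), ⟨h1, ?_⟩, rfl⟩
        rw [mem_Ioo, ← abs_lt, ← sq_lt_one_iff_abs_lt_one] at h2
        simpa using h2
    have hD : Ring n = {p | (p.1 ≠ 0 ∧ Real.log ‖p.1‖ ∈ Ioo (-1 : ℝ) 1) ∧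
        (fun j => Real.exp (-(1 / 2) * Real.log (1 - Real.log ‖p.1‖ ^ 2)) * ‖p.2 j‖) ∈
          {x : Fin n → ℝ | ∑ j, x j ^ 2 < 1}} := by
      ext p
      have key : ∀ t : ℝ, t ∈ Ioo (-1 : ℝ) 1 →
          ((∑ j, (Real.exp (-(1 / 2) * Real.log (1 - t ^ 2)) * ‖p.2 j‖) ^ 2 < 1) ↔
            t ^ 2 + ∑ j, ‖p.2 j‖ ^ 2 < 1) := by
        intro t ht
        have h1 : 0 < 1 - t ^ 2 := by
          rw [mem_Ioo, ← abs_lt, ← sq_lt_one_iff_abs_lt_one] at ht
          linarith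
        have h2 : Real.exp (-(1 / 2) * Real.log (1 - t ^ 2)) ^ 2 = (1 - t ^ 2)⁻¹ := by
          rw [← Real.exp_nat_mul]
          have : ((2 : ℕ) : ℝ) * (-(1 / 2) * Real.log (1 - t ^ 2)) = -Real.log (1 - t ^ 2) := by
            push_cast; ring
          rw [this, Real.exp_neg, Real.exp_log h1]
        simp only [mul_pow, h2]
        rw [← Finset.mul_sum, inv_mul_lt_iff₀ h1, mul_one]
        constructor <;> intro h <;> linarith
      constructor
      · rintro ⟨h1, h2⟩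
        have h3 : 0 ≤ ∑ j, ‖p.2 j‖ ^ 2 := Finset.sum_nonneg fun j _ => by positivity
        have h4 : Real.log ‖p.1‖ ∈ Ioo (-1 : ℝ) 1 := by
          rw [mem_Ioo, ← abs_lt, ← sq_lt_one_iff_abs_lt_one]
          linarith
        exact ⟨⟨h1, h4⟩, (key _ h4).2 h2⟩
      · rintro ⟨⟨h1, h4⟩, h2⟩
        exact ⟨h1, (key _ h4).1 h2⟩
    rw [hfst, hD]
    refine hann n (Ioo (-1 : ℝ) 1) (fun _ t => -(1 / 2) * Real.log (1 - t ^ 2)) _ isOpen_Ioo
      (convex_Ioo _ _) ?_ (fun _ => lg_convex) ?_ ?_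
    · intro h
      have h1 : (2 : ℝ) ∈ Ioo (-1 : ℝ) 1 := by rw [h]; trivial
      have := h1.2
      norm_num at this
    · exact isOpen_lt (by fun_prop) continuous_const
    · intro x hx y hy
      have hx' : ∑ j, x j ^ 2 < 1 := hx
      change ∑ j, y j ^ 2 < 1
      refine lt_of_le_of_lt (Finset.sum_le_sum fun j _ => ?_) hx'
      have := hy j
      nlinarith [this.1, this.2]

end Pool.Agent.Results.MP_ca0fc2_an.ReinhardtDomains
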