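import Pool.Agent.X27.Cor.Touch

/-!
# The corona problem on the ball: data that extend to larger domains touching the ball, and one
arbitrary function, with uniform bounds

`B` is the unit ball of `ℂ^m`. For a boundary point `p` put
`E(p, r, κ) = {z : |z - p| < r, |z|² < 1 + κ |z - ⟨z,p⟩ p|²}`. This is a piece of an ellipsoid which
contains `B` near `p` and whose boundary touches the sphere exactly in the points of the circle
`{e^{iθ} p}`: bounded holomorphic functions on `E(p, r, κ)` may be singular at `p` and at all points of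
this circle near `p` (for instance they may be arbitrary bounded holomorphic functions of `⟨z,p⟩`).

* First part (local form). Fix for every boundary point `p` an index `k(p)` and `r(p), κ(p) > 0`.
  There is a constant `C` such that the Bezout equation `∑ f_j g_j = 1` has a solution with
  `|g_j| ≤ C` for all corona data `f_1, …, f_N` on `B` (`|f_j| ≤ 1`, `∑ |f_j| ≥ δ`) such that, for every
  boundary point `p`, the functions `f_j` with `j ≠ k(p)` extend to holomorphic functions bounded by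
  `1` on `E(p, r(p), κ(p))`. Nothing is assumed about `f_{k(p)}` near `p`.
* Second part (domains). Let `Ω ⊇ B` be a domain such that near each boundary point `p` of `B` it
  contains the part near `p` of a ball of radius `R > 1` which is internally tangent at `p` (`R`
  depends on `p`). Then there is a constant `C` with the following property: if `f_1, …, f_N` are
  holomorphic and bounded by `1` on `Ω`, `G` is holomorphic and bounded by `1` on `B` and
  `∑ |f_j| + |G| ≥ δ` on `B`, then `∑ f_j g_j + G g_0 = 1` for some holomorphic `g_j` on `B` with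
  `|g_j| ≤ C`. For `R = 1` this would be the corona theorem with uniform bounds.

Proof. Near `p` the automorphisms of `B` which translate the geodesic through `0` and `p` preserve the
ellipsoid `|z|² < 1 + κ |z - ⟨z,p⟩ p|²`, and the boundary points of `B` orthogonal to `p` are interior
points of it; hence the functions that extend have small oscillation on the Whitney cells near `p`
(`Pool.Agent.X27.Cor.osc`), and the equation is solvable on each cell. The Whitney localisation of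
`Pool.Agent.TH310.Cor` gives solutions near `p`, and a character argument for the Banach algebra of
bounded families gives solutions on `B` (`Pool.Agent.X27.Cor.glob`).
-/

set_option autoImplicit false

open Metric Set Filter Topology

namespace Pool.Agent.Results.MP_ca0fc2_an.TouchingDomains

/-- `ℂ^m` with the Euclidean norm. -/
abbrev V (m : ℕ) := EuclideanSpace ℂ (Fin m)

/-- The part near `p` (`‖p‖ = 1`) of the ellipsoid `‖z‖² < 1 + κ ‖z - ⟨z, p⟩ p‖²`
(`inner ℂ p z = ∑ z_i conj(p_i)`). -/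
def Touch {m : ℕ} (p : V m) (r κ : ℝ) : Set (V m) :=
  {z | ‖z - p‖ < r ∧ ‖z‖ ^ 2 < 1 + κ * ‖z - (inner ℂ p z : ℂ) • p‖ ^ 2}

/-- Near `p` the function `f` on the ball extends to a holomorphic function bounded by `1` on
`Touch p r κ`. -/
def ExtendsNear {m : ℕ} (p : V m) (r κ : ℝ) (f : V m → ℂ) : Prop :=
  ∃ h : V m → ℂ, DifferentiableOn ℂ h (Touch p r κ) ∧ (∀ z ∈ Touch p r κ, ‖h z‖ ≤ 1) ∧
    ∀ z ∈ ball (0 : V m) 1, ‖z - p‖ < r → f z = h z

theorem result (m N : ℕ) (δ : ℝ) (hδ : 0 < δ) :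
    (∀ (k : V m → Fin N) (r κ : V m → ℝ), (∀ p, 0 < r p) → (∀ p, 0 < κ p) →
      ∃ C : ℝ, ∀ f : Fin N → V m → ℂ, (∀ j, DifferentiableOn ℂ (f j) (ball 0 1)) →
        (∀ j, ∀ z ∈ ball (0 : V m) 1, ‖f j z‖ ≤ 1) →
        (∀ z ∈ ball (0 : V m) 1, δ ≤ ∑ j, ‖f j z‖) →
        (∀ p : V m, ‖p‖ = 1 → ∀ j, j ≠ k p → ExtendsNear p (r p) (κ p) (f j)) →
        ∃ g : Fin N → V m → ℂ, (∀ j, DifferentiableOn ℂ (g j) (ball 0 1)) ∧
          (∀ j, ∀ z ∈ ball (0 : V m) 1, ‖g j z‖ ≤ C) ∧
          ∀ z ∈ ball (0 : V m) 1, ∑ j, f j z * g j z = 1) ∧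
    (∀ Ω : Set (V m), ball (0 : V m) 1 ⊆ Ω →
      (∀ p : V m, ‖p‖ = 1 → ∃ R ρ : ℝ, 1 < R ∧ 0 < ρ ∧
        ball p ρ ∩ ball (((1 - R : ℝ) : ℂ) • p) R ⊆ Ω) →
      ∃ C : ℝ, ∀ (f : Fin N → V m → ℂ) (G : V m → ℂ), (∀ j, DifferentiableOn ℂ (f j) Ω) →
        (∀ j, ∀ z ∈ Ω, ‖f j z‖ ≤ 1) → DifferentiableOn ℂ G (ball 0 1) →
        (∀ z ∈ ball (0 : V m) 1, ‖G z‖ ≤ 1) →
        (∀ z ∈ ball (0 : V m) 1, δ ≤ ∑ j, ‖f j z‖ + ‖G z‖) →
        ∃ (g : Fin N → V m → ℂ) (g₀ : V m → ℂ),
          (∀ j, DifferentiableOn ℂ (g j) (ball 0 1)) ∧ DifferentiableOn ℂ g₀ (ball 0 1) ∧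
          (∀ j, ∀ z ∈ ball (0 : V m) 1, ‖g j z‖ ≤ C) ∧ (∀ z ∈ ball (0 : V m) 1, ‖g₀ z‖ ≤ C) ∧
          ∀ z ∈ ball (0 : V m) 1, ∑ j, f j z * g j z + G z * g₀ z = 1) := by
  refine ⟨fun k r κ hr hκ => Pool.Agent.X27.Cor.touch m N k r κ hr hκ δ hδ, ?_⟩
  intro Ω hΩ hT
  have hT' : ∀ p : V m, ∃ R ρ : ℝ, 1 < R ∧ 0 < ρ ∧
      (‖p‖ = 1 → ball p ρ ∩ ball (((1 - R : ℝ) : ℂ) • p) R ⊆ Ω) := by
    intro p
    by_cases hp : ‖p‖ = 1
    · obtain ⟨R, ρ, h1, h2, h3⟩ := hT p hp
      exact ⟨R, ρ, h1, h2, fun _ => h3⟩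
    · exact ⟨2, 1, by norm_num, one_pos, fun h => absurd h hp⟩
  choose R ρ hR hρ hsub using hT'
  obtain ⟨C, hC⟩ := Pool.Agent.X27.Cor.touch m (N + 1) (fun _ => Fin.last N) ρ
    (fun p => 1 - 1 / R p) hρ (fun p => by
      have := hR p
      have h2 : 1 / R p < 1 := by rw [div_lt_one (by linarith)]; exact this
      linarith) δ hδ
  refine ⟨C, fun f G hf hfb hG hGb hlow => ?_⟩
  have a1 : ∀ j, DifferentiableOn ℂ (Fin.snoc (α := fun _ => V m → ℂ) f G j) (ball 0 1) := by
    intro j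
    refine Fin.lastCases ?_ (fun i => ?_) j
    · rw [Fin.snoc_last]; exact hG
    · rw [Fin.snoc_castSucc]; exact (hf i).mono hΩ
  have a2 : ∀ j, ∀ z ∈ ball (0 : V m) 1, ‖Fin.snoc (α := fun _ => V m → ℂ) f G j z‖ ≤ 1 := by
    intro j
    refine Fin.lastCases ?_ (fun i => ?_) j
    · rw [Fin.snoc_last]; exact hGb
    · rw [Fin.snoc_castSucc]; exact fun z hz => hfb i z (hΩ hz)
  have a3 : ∀ z ∈ ball (0 : V m) 1,
      δ ≤ ∑ j : Fin (N + 1), ‖Fin.snoc (α := fun _ => V m → ℂ) f G j z‖ := by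
    intro z hz
    rw [Fin.sum_univ_castSucc]
    simpa only [Fin.snoc_castSucc, Fin.snoc_last] using hlow z hz
  obtain ⟨g, h1, h2, h3⟩ := hC (Fin.snoc (α := fun _ => V m → ℂ) f G) a1 a2 a3 (by
    intro p hp j hj
    have hE : Pool.Agent.X27.Cor.Ell p (ρ p) (1 - 1 / R p) ⊆ Ω := by
      intro z hz
      refine hsub p hp ⟨?_, Pool.Agent.X27.Cor.tangent hp (hR p) hz⟩
      rw [mem_ball, dist_eq_norm]
      exact hz.1
    revert hj
    refine Fin.lastCases ?_ (fun i => ?_) j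
    · intro hj; exact absurd rfl hj
    · intro _
      rw [Fin.snoc_castSucc]
      exact ⟨f i, (hf i).mono hE, fun z hz => hfb i z (hE hz), fun z _ _ => rfl⟩)
  refine ⟨fun j => g j.castSucc, g (Fin.last N), fun j => h1 _, h1 _, fun j => h2 _, h2 _, ?_⟩
  intro z hz
  have h4 := h3 z hz
  rw [Fin.sum_univ_castSucc] at h4
  simpa only [Fin.snoc_castSucc, Fin.snoc_last] using h4

end Pool.Agent.Results.MP_ca0fc2_an.TouchingDomains
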